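import Pool.Agent.ASO.StmtsH
import Pool.Agent.Helper79_AT10.FRG
import Pool.Agent.Helper86_AT10.LCA
import Pool.Agent.Helper1_AT10.FRB

/-!
# Squad ASO, row HFRO: the theorem of Frobenius for characters
-/

open scoped BigOperators

set_option autoImplicit false

noncomputable section

namespace Pool.Agent.PP.SO.H34

open Pool.Agent.Helper51_AWC Pool.Agent.Helper79_WRA Pool.Agent.PP Pool.Agent.PP.KF
open Pool.Agent.PP.K9 Pool.Agent.PP.K9.H97 Pool.Agent.PP.H75 Pool.Agent.PP.T3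

attribute [local instance] Ideal.Quotient.field

theorem hfro : HFroStmt := by
  intro ℓ hℓ M hMm hM G _ _ χ hχ
  have P : Sylow ℓ G := default
  have hZ : χ ∈ ZI G := AddSubgroup.subset_closure hχ
  obtain ⟨m, hm⟩ : ∃ m, Nat.card G = lpG ℓ G * m := Nat.ordProj_dvd _ _
  have hl0 : (lpG ℓ G : ℂ) ≠ 0 := by
    have h1 : lpG ℓ G ≠ 0 := pow_ne_zero _ (Fact.out : ℓ.Prime).ne_zero
    exact_mod_cast h1
  have hG0 : (Nat.card G : ℂ) ≠ 0 := by exact_mod_cast Nat.card_pos.ne'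
  have hmR : (m : ℂ) ∈ RM M := by
    have := (rr_int (M := M) (m : ℤ)).1
    rwa [Int.cast_natCast] at this
  have h1 := T10.H79.frg ℓ M hM G P (fun x => (m : ℂ) * χ x)
    (fun x y => by simp only [irr_conj hχ])
    (fun x => (RM M).mul_mem hmR (RM_of_int (irr_integral hχ x)))
    (fun κ hκ => by
      have h2 : (fun u : (P : Subgroup G) => χ (u : G) * κ (u : G)) ∈ ZI (P : Subgroup G) :=
        T5.H32.mul_mem_ZI (T10.H86.res_mem (P : Subgroup G).subtype hZ)
          (T10.H86.res_mem (P : Subgroup G).subtype hκ)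
      obtain ⟨n, hn⟩ := T10.H86.avg_int h2
      have h4 : ∑ᶠ u : (P : Subgroup G), (m : ℂ) * χ (u : G) * κ (u : G) =
          (m : ℂ) * ∑ᶠ u : (P : Subgroup G), χ (u : G) * κ (u : G) := by
        rw [mul_finsum' _ _ (Set.toFinite _)]
        exact finsum_congr fun u => mul_assoc _ _ _
      have h3 : (Nat.card (P : Subgroup G) : ℂ)⁻¹ *
          ∑ᶠ u : (P : Subgroup G), (m : ℂ) * χ (u : G) * κ (u : G) = (m : ℂ) * n := by
        rw [h4, ← hn]
        ring
      have h5 : (Nat.card (P : Subgroup G) : ℂ)⁻¹ *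
          ∑ᶠ u : (P : Subgroup G), (m : ℂ) * χ (u : G) * κ (u : G) ∈ RM M := by
        rw [h3]
        exact (RM M).mul_mem hmR (rr_int n).1
      exact h5)
  have h2 : ∑ᶠ (u : G) (_ : El ℓ u), (m : ℂ) * χ u = (m : ℂ) * ∑ᶠ (u : G) (_ : El ℓ u), χ u := by
    rw [mul_finsum' _ _ (Set.toFinite _)]
    refine finsum_congr fun u => ?_
    classical
    rw [finsum_eq_if, finsum_eq_if]
    split_ifs
    · rfl
    · rw [mul_zero]
  rw [h2] at h1
  have h3 : (Nat.card G : ℂ) = (lpG ℓ G : ℂ) * (m : ℂ) := by exact_mod_cast hm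
  have hm0 : (m : ℂ) ≠ 0 := by
    intro h
    rw [h, mul_zero] at h3
    exact hG0 h3
  have h4 : (Nat.card G : ℂ)⁻¹ * ((m : ℂ) * ∑ᶠ (u : G) (_ : El ℓ u), χ u) =
      (∑ᶠ (u : G) (_ : El ℓ u), χ u) / (lpG ℓ G : ℂ) := by
    rw [h3]
    field_simp
  rw [h4] at h1
  exact h1

end Pool.Agent.PP.SO.H34
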